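import Pool.Agent.Y847.RB.Cherry

set_option autoImplicit false

namespace Y847.RB

open SimpleGraph Pool.Agent.Results.MP_742028_co.Robustness

open scoped Fin.CommRing Fin.NatCast

variable {k : ℕ}

/-- The edge of the odd cycle from `i` to `i + 1`. -/
def ce (i : Fin (2 * k + 3)) : Sym2 (Fin (2 * k + 3)) := s(i, i + 1)

lemma cyc_adj (x y : Fin (2 * k + 3)) : (cycleGraph (2 * k + 3)).Adj x y ↔ y = x - 1 ∨ y = x + 1 := by
  have h := (cycleGraph_neighborSet (n := 2 * k + 1) (v := x))
  have h2 : y ∈ (cycleGraph (2 * k + 1 + 2)).neighborSet x ↔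
      y ∈ ({x - 1, x + 1} : Set (Fin (2 * k + 1 + 2))) := by rw [h]
  rw [mem_neighborSet] at h2
  simpa using h2

lemma two_ne : (2 : Fin (2 * k + 3)) ≠ 0 := by
  intro h
  have := congrArg Fin.val h
  simp only [Fin.val_zero] at this
  have h2 : ((2 : Fin (2 * k + 3)) : ℕ) = 2 % (2 * k + 3) := rfl
  rw [h2, Nat.mod_eq_of_lt (by omega)] at this
  omega

lemma one_ne : (1 : Fin (2 * k + 3)) ≠ 0 := by
  intro h
  have := congrArg Fin.val h
  simp at this

lemma ce_inj : Function.Injective (ce (k := k)) := by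
  intro i j h
  unfold ce at h
  rw [Sym2.eq_iff] at h
  rcases h with ⟨h, _⟩ | ⟨h1, h2⟩
  · exact h
  · exfalso
    rw [h1, add_assoc] at h2
    have h3 : (1 : Fin (2 * k + 3)) + 1 = 0 := by simpa using h2
    apply two_ne (k := k)
    rw [← h3]
    exact one_add_one_eq_two.symm

lemma cyc_cherry {x y z : Fin (2 * k + 3)} (h1 : (cycleGraph (2 * k + 3)).Adj x y)
    (h2 : (cycleGraph (2 * k + 3)).Adj y z) (h3 : x ≠ z) :
    (s(x, y) = ce (y - 1) ∧ s(y, z) = ce y) ∨ (s(x, y) = ce y ∧ s(y, z) = ce (y - 1)) := by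
  rw [adj_comm] at h1
  rw [cyc_adj] at h1 h2
  unfold ce
  rw [sub_add_cancel]
  rcases h1 with rfl | rfl <;> rcases h2 with rfl | rfl
  · exact absurd rfl h3
  · exact Or.inl ⟨rfl, rfl⟩
  · exact Or.inr ⟨Sym2.eq_swap, Sym2.eq_swap⟩
  · exact absurd rfl h3

lemma cyc_edge {e : Sym2 (Fin (2 * k + 3))} (he : e ∈ (cycleGraph (2 * k + 3)).edgeSet) :
    ∃ j, e = ce j := by
  induction e using Sym2.ind with
  | _ x y =>
    rw [mem_edgeSet, cyc_adj] at he
    rcases he with rfl | rfl
    · exact ⟨x - 1, by unfold ce; rw [sub_add_cancel]; exact Sym2.eq_swap⟩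
    · exact ⟨x, rfl⟩

lemma ce_mem (j : Fin (2 * k + 3)) : ce j ∈ (cycleGraph (2 * k + 3)).edgeSet := by
  unfold ce
  rw [mem_edgeSet, cyc_adj]
  exact Or.inr rfl

lemma cyc_edges_ncard : (cycleGraph (2 * k + 3)).edgeSet.ncard = 2 * k + 3 := by
  have : (cycleGraph (2 * k + 3)).edgeSet = ce '' Set.univ := by
    ext e
    constructor
    · intro he
      obtain ⟨j, rfl⟩ := cyc_edge he
      exact ⟨j, trivial, rfl⟩
    · rintro ⟨j, _, rfl⟩
      exact ce_mem j
  rw [this, Set.ncard_image_of_injective _ ce_inj, Set.ncard_univ, Nat.card_fin]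

/-- Odd cycles are Ramsey-minimal for the cherry with two colours. -/
lemma cyc_minimal (k : ℕ) : RamseyMinimal 2 P3 (cycleGraph (2 * k + 3)) := by
  classical
  apply minimal_P3 (by norm_num)
  · intro v
    exact ⟨v + 1, by rw [cyc_adj]; exact Or.inr rfl⟩
  · intro c
    by_contra hcon
    push Not at hcon
    have hne : ∀ y : Fin (2 * k + 3), c (ce (y - 1)) ≠ c (ce y) := by
      intro y
      have h := hcon (y - 1) y (y + 1) (by rw [cyc_adj]; right; rw [sub_add_cancel])
        (by rw [cyc_adj]; exact Or.inr rfl) (by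
          intro h
          apply two_ne (k := k)
          have h1 : y + 1 + 1 = y := by rw [← h, sub_add_cancel]
          have h3 : (1 : Fin (2 * k + 3)) + 1 = 0 := by
            rw [add_assoc] at h1; simpa using h1
          rw [← h3]
          exact one_add_one_eq_two.symm)
      have h2 : s(y - 1, y) = ce (y - 1) := by unfold ce; rw [sub_add_cancel]
      rw [h2] at h
      exact h
    have hpar : ∀ m : ℕ, (c (ce ((m : ℕ) : Fin (2 * k + 3)))).val =
        ((c (ce (0 : Fin (2 * k + 3)))).val + m) % 2 := by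
      intro m
      induction m with
      | zero =>
        simp only [Nat.cast_zero, add_zero]
        have := (c (ce (0 : Fin (2 * k + 3)))).isLt
        omega
      | succ m ih =>
        have h := hne ((m + 1 : ℕ) : Fin (2 * k + 3))
        have h1 : (((m + 1 : ℕ) : Fin (2 * k + 3)) - 1) = ((m : ℕ) : Fin (2 * k + 3)) := by
          rw [Nat.cast_add, Nat.cast_one, add_sub_cancel_right]
        rw [h1] at h
        have h2 : (c (ce ((m : ℕ) : Fin (2 * k + 3)))).val ≠
            (c (ce (((m + 1 : ℕ)) : Fin (2 * k + 3)))).val := fun h3 => h (Fin.ext h3)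
        have h3 := (c (ce ((m : ℕ) : Fin (2 * k + 3)))).isLt
        have h4 := (c (ce (((m + 1 : ℕ)) : Fin (2 * k + 3)))).isLt
        omega
    have h := hpar (2 * k + 3)
    have h0 : ((2 * k + 3 : ℕ) : Fin (2 * k + 3)) = 0 := Fin.natCast_self _
    rw [h0] at h
    have := (c (ce (0 : Fin (2 * k + 3)))).isLt
    omega
  · intro e he
    obtain ⟨j, rfl⟩ := cyc_edge he
    refine ⟨fun e => if ∃ i, e = ce i ∧ (i - j).val % 2 = 0 then 0 else 1, ?_⟩
    have hcol : ∀ i : Fin (2 * k + 3), (∃ i', ce i = ce i' ∧ (i' - j).val % 2 = 0) ↔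
        (i - j).val % 2 = 0 := by
      intro i
      constructor
      · rintro ⟨i', h1, h2⟩
        rw [ce_inj h1]
        exact h2
      · intro h
        exact ⟨i, rfl, h⟩
    have hpar : ∀ y : Fin (2 * k + 3), y ≠ j → (y - j).val = (y - 1 - j).val + 1 := by
      intro y hy
      have h1 : y - j ≠ 0 := sub_ne_zero.2 hy
      have h2 : y - 1 - j = y - j - 1 := by abel
      rw [h2, Fin.val_sub_one_of_ne_zero h1]
      have h3 : (y - j).val ≠ 0 := fun h => h1 (Fin.ext h)
      omega
    intro x y z h1 h2 h3 h4 h5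
    rcases cyc_cherry h1 h2 h3 with ⟨h6, h7⟩ | ⟨h6, h7⟩
    · rw [h6] at h4 ⊢
      rw [h7] at h5 ⊢
      have hy : y ≠ j := by rintro rfl; exact h5 rfl
      have := hpar y hy
      simp only [hcol]
      by_cases h8 : (y - 1 - j).val % 2 = 0
      · rw [if_pos h8, if_neg (by omega)]
        exact zero_ne_one
      · rw [if_neg h8, if_pos (by omega)]
        exact one_ne_zero
    · rw [h6] at h4 ⊢
      rw [h7] at h5 ⊢
      have hy : y ≠ j := by rintro rfl; exact h4 rfl
      have := hpar y hy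
      simp only [hcol]
      by_cases h8 : (y - 1 - j).val % 2 = 0
      · rw [if_pos h8, if_neg (by omega)]
        exact one_ne_zero
      · rw [if_neg h8, if_pos (by omega)]
        exact zero_ne_one

lemma cyc_mult (k : ℕ) : multiplicity 1 P3 (cycleGraph (2 * k + 3)) ≤ 2 * k + 3 := by
  refine mult_P3_le.trans ?_
  have hsub : {T : Set (Sym2 (Fin (2 * k + 3))) | ∃ x y z, (cycleGraph (2 * k + 3)).Adj x y ∧
      (cycleGraph (2 * k + 3)).Adj y z ∧ x ≠ z ∧ T = {s(x, y), s(y, z)}} ⊆
      (fun y : Fin (2 * k + 3) => ({ce (y - 1), ce y} : Set (Sym2 (Fin (2 * k + 3))))) '' Set.univ := by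
    rintro T ⟨x, y, z, h1, h2, h3, rfl⟩
    refine ⟨y, trivial, ?_⟩
    rcases cyc_cherry h1 h2 h3 with ⟨h6, h7⟩ | ⟨h6, h7⟩
    · rw [h6, h7]
    · rw [h6, h7]
      exact Set.pair_comm _ _
  refine (Set.ncard_le_ncard hsub (Set.toFinite _)).trans ?_
  refine (Set.ncard_image_le (Set.toFinite _)).trans ?_
  rw [Set.ncard_univ, Nat.card_fin]

/-- Equality in the sharp bound for the cherry, two colours and all odd cycles. -/
lemma cyc_robust (k : ℕ) :
    robustness 2 P3 (cycleGraph (2 * k + 3)) = 2 / ((2 : ℕ) * (2 * k + 3 : ℕ)) := by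
  have h1 := cyc_edges_ncard (k := k)
  have h2 := sandwich (by norm_num) (cyc_minimal k) (by rw [h1]; omega) (by
    rw [h1]
    exact Nat.mul_le_mul_left 2 (cyc_mult k))
  rw [h2, h1]

end Y847.RB
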