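import Pool.Agent.Y847.RB.Key

set_option autoImplicit false

namespace Y847.RB

open SimpleGraph Pool.Agent.Results.MP_742028_co.Robustness

/-- The cherry `P_3 = K_{1,2}`: the path with two edges. -/
abbrev P3 : SimpleGraph (Fin 3) := pathGraph 3

lemma a01 : P3.Adj 0 1 := by simp [P3, pathGraph_adj]
lemma a12 : P3.Adj 1 2 := by simp [P3, pathGraph_adj]

variable {V : Type} {r : ℕ} {G : SimpleGraph V}

lemma p3_cases {a b : Fin 3} (h : P3.Adj a b) :
    (a = 0 ∧ b = 1) ∨ (a = 1 ∧ b = 0) ∨ (a = 1 ∧ b = 2) ∨ (a = 2 ∧ b = 1) := by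
  rw [P3, pathGraph_adj] at h
  fin_cases a <;> fin_cases b <;> simp_all

lemma arrows_P3 (hr : 0 < r) : Arrows r G P3 ↔ ∀ c : Sym2 V → Fin r, ∃ x y z : V,
    G.Adj x y ∧ G.Adj y z ∧ x ≠ z ∧ c s(x, y) = c s(y, z) := by
  classical
  rw [arrows_iff]
  constructor
  · intro h c
    obtain ⟨f, i, hi⟩ := h (fun e => c e.1)
    refine ⟨f 0, f 1, f 2, f.toHom.map_adj a01, f.toHom.map_adj a12, ?_, ?_⟩
    · intro h1
      have := f.injective h1
      simp at this
    · exact (hi 0 1 a01).trans (hi 1 2 a12).symm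
  · intro h c
    obtain ⟨x, y, z, h1, h2, hxz, hc⟩ := h (fun e => if he : e ∈ G.edgeSet then c ⟨e, he⟩ else ⟨0, hr⟩)
    have h1' : s(x, y) ∈ G.edgeSet := h1
    have h2' : s(y, z) ∈ G.edgeSet := h2
    simp only [h1', h2', dite_true] at hc
    have hxy : x ≠ y := h1.ne
    have hyz : y ≠ z := h2.ne
    refine ⟨⟨⟨![x, y, z], ?_⟩, ?_⟩, c ⟨s(x, y), h1⟩, ?_⟩
    · intro a b hab
      rcases p3_cases hab with ⟨rfl, rfl⟩ | ⟨rfl, rfl⟩ | ⟨rfl, rfl⟩ | ⟨rfl, rfl⟩
      · exact h1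
      · exact h1.symm
      · exact h2
      · exact h2.symm
    · intro a b hab
      change ![x, y, z] a = ![x, y, z] b at hab
      fin_cases a <;> fin_cases b <;> simp_all
    · intro a b hab
      rcases p3_cases hab with ⟨rfl, rfl⟩ | ⟨rfl, rfl⟩ | ⟨rfl, rfl⟩ | ⟨rfl, rfl⟩
      · rfl
      · congr 1
        exact Subtype.ext Sym2.eq_swap
      · exact hc.symm
      · rw [hc]
        congr 1
        exact Subtype.ext Sym2.eq_swap

/-- A criterion for Ramsey-minimality for the cherry. -/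
lemma minimal_P3 (hr : 0 < r) (hiso : ∀ v, ∃ w, G.Adj v w)
    (hA : ∀ c : Sym2 V → Fin r, ∃ x y z : V,
      G.Adj x y ∧ G.Adj y z ∧ x ≠ z ∧ c s(x, y) = c s(y, z))
    (hcol : ∀ e ∈ G.edgeSet, ∃ c : Sym2 V → Fin r, ∀ x y z : V, G.Adj x y → G.Adj y z → x ≠ z →
      s(x, y) ≠ e → s(y, z) ≠ e → c s(x, y) ≠ c s(y, z)) :
    RamseyMinimal r P3 G := by
  refine ⟨(arrows_P3 hr).2 hA, ?_⟩
  intro S hS hAr
  obtain ⟨e, he, heS⟩ : ∃ e ∈ G.edgeSet, e ∉ S.edgeSet := by
    by_contra hcon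
    push Not at hcon
    apply hS
    have hadj : ∀ a b, G.Adj a b → S.Adj a b := fun a b hab => hcon s(a, b) hab
    apply Subgraph.ext
    · ext v
      refine ⟨fun _ => trivial, fun _ => ?_⟩
      obtain ⟨w, hw⟩ := hiso v
      exact S.edge_vert (hadj v w hw)
    · ext a b
      exact ⟨fun h => S.adj_sub h, fun h => hadj a b h⟩
  obtain ⟨c, hc⟩ := hcol e he
  obtain ⟨x, y, z, h1, h2, hxz, h3⟩ := (arrows_P3 hr).1 hAr (fun e => c (Sym2.map Subtype.val e))
  have h1' : S.Adj x.1 y.1 := h1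
  have h2' : S.Adj y.1 z.1 := h2
  refine hc x.1 y.1 z.1 (S.adj_sub h1') (S.adj_sub h2') (fun h => hxz (Subtype.ext h)) ?_ ?_ h3
  · rintro rfl; exact heS h1'
  · rintro rfl; exact heS h2'

lemma P3_edges : P3.edgeSet.ncard = 2 := by
  have : P3.edgeSet = {s(0, 1), s(1, 2)} := by
    ext e
    induction e using Sym2.ind with
    | _ a b =>
      rw [mem_edgeSet]
      constructor
      · intro h
        rcases p3_cases h with ⟨rfl, rfl⟩ | ⟨rfl, rfl⟩ | ⟨rfl, rfl⟩ | ⟨rfl, rfl⟩ <;> simp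
      · intro h
        simp only [Set.mem_insert_iff, Set.mem_singleton_iff, Sym2.eq_iff] at h
        rcases h with (⟨rfl, rfl⟩ | ⟨rfl, rfl⟩) | (⟨rfl, rfl⟩ | ⟨rfl, rfl⟩)
        · exact a01
        · exact a01.symm
        · exact a12
        · exact a12.symm
  rw [this, Set.ncard_pair]
  simp

lemma copy_P3 [Finite V] {S : G.Subgraph} (h : IsCopy P3 S) : ∃ x y z : V, G.Adj x y ∧ G.Adj y z ∧
    x ≠ z ∧ S.edgeSet = {s(x, y), s(y, z)} := by
  have h2 := card_edges_of_copy h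
  rw [P3_edges] at h2
  obtain ⟨φ⟩ := h
  have h3 : S.Adj (φ 0).1 (φ 1).1 := φ.map_adj_iff.2 a01
  have h4 : S.Adj (φ 1).1 (φ 2).1 := φ.map_adj_iff.2 a12
  have hne : (φ 0).1 ≠ (φ 2).1 := by
    intro h
    have := φ.injective (Subtype.ext h)
    simp at this
  refine ⟨(φ 0).1, (φ 1).1, (φ 2).1, S.adj_sub h3, S.adj_sub h4, hne, ?_⟩
  symm
  apply Set.eq_of_subset_of_ncard_le _ _ (Set.toFinite _)
  · intro e he
    rcases he with rfl | he
    · exact h3
    · rw [Set.mem_singleton_iff] at he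
      rw [he]
      exact h4
  · rw [h2, Set.ncard_pair]
    intro h
    rw [Sym2.eq_iff] at h
    rcases h with ⟨h5, _⟩ | ⟨h5, _⟩
    · exact (S.adj_sub h3).ne h5
    · exact hne h5

lemma copy_P3_verts {S : G.Subgraph} (h : IsCopy P3 S) (v : V) :
    v ∈ S.verts ↔ ∃ w, S.Adj v w := by
  constructor
  · intro hv
    obtain ⟨φ⟩ := h
    obtain ⟨a, ha⟩ := φ.surjective ⟨v, hv⟩
    obtain ⟨b, hb⟩ : ∃ b, P3.Adj a b := by
      fin_cases a
      · exact ⟨1, a01⟩
      · exact ⟨2, a12⟩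
      · exact ⟨1, a12.symm⟩
    refine ⟨(φ b).1, ?_⟩
    have : S.Adj (φ a).1 (φ b).1 := φ.map_adj_iff.2 hb
    rwa [ha] at this
  · rintro ⟨w, hw⟩
    exact S.edge_vert hw

lemma mult_P3_le [Finite V] : multiplicity 1 P3 G ≤ {T : Set (Sym2 V) | ∃ x y z : V, G.Adj x y ∧
    G.Adj y z ∧ x ≠ z ∧ T = {s(x, y), s(y, z)}}.ncard := by
  have hfin : Finite (Set (Sym2 V)) := inferInstance
  rw [multiplicity_one]
  apply Set.ncard_le_ncard_of_injOn (fun S : G.Subgraph => S.edgeSet) _ _ (Set.toFinite _)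
  · intro S hS
    exact copy_P3 hS
  · intro S hS T hT hST
    have hadj : ∀ a b, S.Adj a b ↔ T.Adj a b := by
      intro a b
      have : s(a, b) ∈ S.edgeSet ↔ s(a, b) ∈ T.edgeSet := by
        have h := hST
        simp only at h
        rw [h]
      exact this
    apply Subgraph.ext
    · ext v
      rw [copy_P3_verts hS, copy_P3_verts hT]
      simp [hadj]
    · ext a b
      exact hadj a b

lemma mult_pos [Finite V] {W : Type} {H : SimpleGraph W} (hr : 0 < r) (h : Arrows r G H) :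
    1 ≤ multiplicity r H G := by
  have hSf := finite_subgraph G
  have : Nonempty (G.edgeSet → Fin r) := ⟨fun _ => ⟨0, hr⟩⟩
  apply le_ciInf
  intro c
  rw [Nat.one_le_iff_ne_zero, ← pos_iff_ne_zero, Set.ncard_pos (Set.toFinite _)]
  exact h c

/-- Equality in the sharp bound. -/
lemma sandwich [Finite V] (hr : 0 < r) (h : RamseyMinimal r P3 G)
    (he : 0 < G.edgeSet.ncard) (h1 : 2 * multiplicity 1 P3 G ≤ r * G.edgeSet.ncard) :
    robustness r P3 G = 2 / (r * G.edgeSet.ncard) := by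
  have h2 := key' hr (by rw [P3_edges]) h
  rw [P3_edges] at h2
  have h3 := mult_pos hr h.1
  have h4 : multiplicity r P3 G = 1 := by
    apply le_antisymm _ h3
    have h5 : r * G.edgeSet.ncard * multiplicity r P3 G ≤ r * G.edgeSet.ncard * 1 := by
      calc r * G.edgeSet.ncard * multiplicity r P3 G
          = r * multiplicity r P3 G * G.edgeSet.ncard := by ring
        _ ≤ _ := by rw [mul_one]; exact h2.trans h1
    exact Nat.le_of_mul_le_mul_left h5 (Nat.mul_pos hr he)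
  rw [h4, mul_one] at h2
  have h6 : 2 * multiplicity 1 P3 G = r * G.edgeSet.ncard := le_antisymm h1 h2
  have h7 : (2 : ℝ) * multiplicity 1 P3 G = r * G.edgeSet.ncard := by exact_mod_cast h6
  unfold robustness
  rw [h4, ← h7]
  have h8 : (0 : ℝ) < multiplicity 1 P3 G := by
    have : 0 < r * G.edgeSet.ncard := Nat.mul_pos hr he
    have h9 : 0 < multiplicity 1 P3 G := by omega
    exact_mod_cast h9
  field_simp
  simp

end Y847.RB
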