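import Pool.Agent.Results.MP_742028_co.Robustness

set_option autoImplicit false

namespace Y847.RB

open SimpleGraph Pool.Agent.Results.MP_742028_co.Robustness

/-- **Critical hypergraphs.**  `ed s` are the edges (with multiplicities) of an `m`-uniform
hypergraph on the finite vertex set `E`, `2 ≤ m`.  If for every vertex `e` some `r`-colouring of
the vertices has all its monochromatic edges through `e`, then the minimum number `M` of
monochromatic edges of an `r`-colouring satisfies `r * M * |E| ≤ m * (number of edges)`. -/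
theorem hyper {ι E : Type} [Fintype ι] [Fintype E] [DecidableEq E] (ed : ι → Finset E)
    (m r : ℕ) (hm : ∀ s, (ed s).card = m) (h2 : 2 ≤ m)
    (hcrit : ∀ e : E, ∃ c : E → Fin r, ∀ s, (∃ i, ∀ x ∈ ed s, c x = i) → e ∈ ed s) :
    r * (⨅ c : E → Fin r, {s : ι | ∃ i, ∀ x ∈ ed s, c x = i}.ncard) * Fintype.card E
      ≤ m * Fintype.card ι := by
  classical
  obtain ⟨M, hM⟩ : ∃ M, M = ⨅ c : E → Fin r, {s : ι | ∃ i, ∀ x ∈ ed s, c x = i}.ncard := ⟨_, rfl⟩
  rw [← hM]
  have hMle : ∀ c : E → Fin r, M ≤ {s : ι | ∃ i, ∀ x ∈ ed s, c x = i}.ncard := by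
    intro c
    rw [hM]
    exact Nat.sInf_le ⟨c, rfl⟩
  have key : ∀ e : E, r * M ≤ (Finset.univ.filter (fun s => e ∈ ed s)).card := by
    intro e
    obtain ⟨c, hc⟩ := hcrit e
    let A : Fin r → Finset ι := fun i => Finset.univ.filter
      (fun s => ∃ j, ∀ x ∈ ed s, Function.update c e i x = j)
    have hA : ∀ i, M ≤ (A i).card := by
      intro i
      refine (hMle (Function.update c e i)).trans_eq ?_
      rw [← Set.ncard_coe_finset]
      congr 1
      ext s
      simp [A]
    have hother : ∀ s, ∃ x ∈ ed s, x ≠ e := by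
      intro s
      by_contra hcon
      push Not at hcon
      have : (ed s).card ≤ 1 := Finset.card_le_one.2 (fun a ha b hb => (hcon a ha).trans (hcon b hb).symm)
      rw [hm s] at this
      omega
    have hAe : ∀ i, ∀ s ∈ A i, e ∈ ed s := by
      intro i s hs
      by_contra he
      obtain ⟨j, hj⟩ := (Finset.mem_filter.1 hs).2
      refine he (hc s ⟨j, fun x hx => ?_⟩)
      have hxe : x ≠ e := fun h => he (h ▸ hx)
      have := hj x hx
      rwa [Function.update_of_ne hxe] at this
    have hdisj : ∀ i ∈ (Finset.univ : Finset (Fin r)), ∀ j ∈ (Finset.univ : Finset (Fin r)),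
        i ≠ j → Disjoint (A i) (A j) := by
      intro i _ j _ hij
      rw [Finset.disjoint_left]
      intro s hi hj
      apply hij
      have he := hAe i s hi
      obtain ⟨a, ha⟩ := (Finset.mem_filter.1 hi).2
      obtain ⟨b, hb⟩ := (Finset.mem_filter.1 hj).2
      obtain ⟨x, hx, hxe⟩ := hother s
      have h1 := ha x hx
      have h2' := hb x hx
      rw [Function.update_of_ne hxe] at h1 h2'
      have h3 := ha e he
      have h4 := hb e he
      rw [Function.update_self] at h3 h4
      rw [h3, h4, ← h1, ← h2']
    calc r * M = ∑ _i : Fin r, M := by simp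
      _ ≤ ∑ i : Fin r, (A i).card := Finset.sum_le_sum (fun i _ => hA i)
      _ = (Finset.univ.biUnion A).card := (Finset.card_biUnion hdisj).symm
      _ ≤ _ := by
        apply Finset.card_le_card
        intro s hs
        obtain ⟨i, _, hi⟩ := Finset.mem_biUnion.1 hs
        exact Finset.mem_filter.2 ⟨Finset.mem_univ _, hAe i s hi⟩
  calc r * M * Fintype.card E = ∑ _e : E, r * M := by
        simp [Finset.sum_const, mul_comm]
    _ ≤ ∑ e : E, (Finset.univ.filter (fun s => e ∈ ed s)).card := Finset.sum_le_sum (fun e _ => key e)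
    _ = ∑ s : ι, (ed s).card := by
        simp_rw [Finset.card_filter]
        rw [Finset.sum_comm]
        apply Finset.sum_congr rfl
        intro s _
        rw [← Finset.card_filter]
        congr 1
        ext x
        simp
    _ = m * Fintype.card ι := by
        rw [Finset.sum_congr rfl (fun s _ => hm s)]
        simp [mul_comm]

/-- The sharp averaging inequality for Ramsey-minimal graphs. -/
theorem key' {W V : Type} {r : ℕ} {H : SimpleGraph W} {G : SimpleGraph V} [Finite V]
    (hr : 0 < r) (h2 : 2 ≤ H.edgeSet.ncard) (h : RamseyMinimal r H G) :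
    r * multiplicity r H G * G.edgeSet.ncard ≤ H.edgeSet.ncard * multiplicity 1 H G := by
  classical
  have hV : Fintype V := Fintype.ofFinite V
  have hSf := finite_subgraph G
  have hfi : Fintype {S : G.Subgraph // IsCopy H S} := Fintype.ofFinite _
  have hfe : Fintype G.edgeSet := Fintype.ofFinite _
  let ed : {S : G.Subgraph // IsCopy H S} → Finset G.edgeSet := fun S =>
    Finset.univ.filter (fun e => e.1 ∈ S.1.edgeSet)
  have hed : ∀ S, (ed S).card = H.edgeSet.ncard := by
    intro S
    rw [← card_edges_of_copy S.2]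
    have : S.1.edgeSet = ((ed S).map ⟨Subtype.val, Subtype.val_injective⟩ : Finset (Sym2 V)) := by
      ext e
      simp only [ed, Finset.coe_map, Function.Embedding.coeFn_mk, Finset.coe_filter,
        Finset.mem_univ, true_and, Set.mem_image, Set.mem_ofPred_eq, Subtype.exists,
        exists_and_right, exists_eq_right]
      constructor
      · intro he
        exact ⟨S.1.edgeSet_subset he, he⟩
      · rintro ⟨_, he⟩
        exact he
    rw [this, Set.ncard_coe_finset, Finset.card_map]
  have hmono : ∀ (c : G.edgeSet → Fin r) (S : {S : G.Subgraph // IsCopy H S}),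
      (∃ i, ∀ x ∈ ed S, c x = i) ↔ IsMono c S.1 := by
    intro c S
    constructor
    · rintro ⟨i, hi⟩
      exact ⟨i, fun e he => hi _ (by simp [ed, he])⟩
    · rintro ⟨i, hi⟩
      refine ⟨i, fun x hx => ?_⟩
      simp only [ed, Finset.mem_filter, Finset.mem_univ, true_and] at hx
      exact hi x.1 hx
  have h3 := hyper ed H.edgeSet.ncard r hed h2 (by
    intro e
    obtain ⟨c, hc⟩ := h.exists_colouring hr e.1 e.2
    refine ⟨c, fun S hS => ?_⟩
    have := hc S.1 S.2 ((hmono c S).1 hS)
    simp [ed, this])
  have h4 : (⨅ c : G.edgeSet → Fin r, {s | ∃ i, ∀ x ∈ ed s, c x = i}.ncard) =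
      multiplicity r H G := by
    unfold Pool.Agent.Results.MP_742028_co.Robustness.multiplicity
    congr 1
    ext c
    have : {S : G.Subgraph | IsCopy H S ∧ IsMono c S} =
        Subtype.val '' {s : {S : G.Subgraph // IsCopy H S} | ∃ i, ∀ x ∈ ed s, c x = i} := by
      ext S
      simp only [Set.mem_ofPred_eq, Set.mem_image, Subtype.exists, exists_and_right, exists_eq_right]
      constructor
      · rintro ⟨h5, h6⟩
        exact ⟨h5, (hmono c ⟨S, h5⟩).2 h6⟩
      · rintro ⟨h5, h6⟩
        exact ⟨h5, (hmono c ⟨S, h5⟩).1 h6⟩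
    rw [this, Set.ncard_image_of_injective _ Subtype.val_injective]
  have h5 : Fintype.card {S : G.Subgraph // IsCopy H S} = multiplicity 1 H G := by
    rw [multiplicity_one, ← Nat.card_eq_fintype_card, Set.ncard_def, Set.encard, ENat.card]
    rfl
  have h6 : Fintype.card G.edgeSet = G.edgeSet.ncard := by
    rw [← Nat.card_eq_fintype_card]; rfl
  rw [h4, h5, h6] at h3
  exact h3

end Y847.RB
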