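import Pool.Agent.Y847.RB.Cherry

set_option autoImplicit false

namespace Y847.RB

open SimpleGraph Pool.Agent.Results.MP_742028_co.Robustness

/-- The star `K_{1,m}`. -/
abbrev St (m : ℕ) : SimpleGraph (Fin 1 ⊕ Fin m) := completeBipartiteGraph (Fin 1) (Fin m)

lemma st_adj (m : ℕ) (x y : Fin 1 ⊕ Fin m) : (St m).Adj x y ↔
    (∃ i, x = Sum.inl 0 ∧ y = Sum.inr i) ∨ (∃ i, x = Sum.inr i ∧ y = Sum.inl 0) := by
  rcases x with a | a <;> rcases y with b | b <;> simp [completeBipartiteGraph, Subsingleton.elim _ (0 : Fin 1)]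

lemma st_edges (m : ℕ) : (St m).edgeSet = Set.range (fun i : Fin m => s(Sum.inl 0, Sum.inr i)) := by
  ext e
  induction e using Sym2.ind with
  | _ x y =>
    rw [mem_edgeSet, st_adj, Set.mem_range]
    constructor
    · rintro (⟨i, rfl, rfl⟩ | ⟨i, rfl, rfl⟩)
      · exact ⟨i, rfl⟩
      · exact ⟨i, Sym2.eq_swap⟩
    · rintro ⟨i, hi⟩
      rw [Sym2.eq_iff] at hi
      rcases hi with ⟨rfl, rfl⟩ | ⟨rfl, rfl⟩
      · exact Or.inl ⟨i, rfl, rfl⟩
      · exact Or.inr ⟨i, rfl, rfl⟩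

lemma edge_inj (m : ℕ) : Function.Injective
    (fun i : Fin m => (s(Sum.inl 0, Sum.inr i) : Sym2 (Fin 1 ⊕ Fin m))) := by
  intro i j h
  simp only [Sym2.eq_iff] at h
  simpa using h

lemma st_edges_ncard (m : ℕ) : (St m).edgeSet.ncard = m := by
  rw [st_edges, ← Set.image_univ, Set.ncard_image_of_injective _ (edge_inj m), Set.ncard_univ,
    Nat.card_fin]

lemma st_cherry {m : ℕ} {x y z : Fin 1 ⊕ Fin m} (h1 : (St m).Adj x y) (h2 : (St m).Adj y z)
    (h3 : x ≠ z) : ∃ i j : Fin m, i ≠ j ∧ s(x, y) = s(Sum.inl 0, Sum.inr i) ∧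
      s(y, z) = s(Sum.inl 0, Sum.inr j) := by
  rw [st_adj] at h1 h2
  rcases h1 with ⟨i, rfl, rfl⟩ | ⟨i, rfl, rfl⟩
  · rcases h2 with ⟨j, h, rfl⟩ | ⟨j, h, rfl⟩
    · cases h
    · exact absurd rfl h3
  · rcases h2 with ⟨j, h, rfl⟩ | ⟨j, h, rfl⟩
    · refine ⟨i, j, ?_, Sym2.eq_swap, rfl⟩
      rintro rfl
      exact h3 rfl
    · cases h

/-- `K_{1,r+1}` is Ramsey-minimal for the cherry with `r` colours. -/
lemma st_minimal (r : ℕ) (hr : 0 < r) : RamseyMinimal r P3 (St (r + 1)) := by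
  classical
  apply minimal_P3 hr
  · intro v
    rcases v with a | a
    · exact ⟨Sum.inr 0, by simp [completeBipartiteGraph]⟩
    · exact ⟨Sum.inl 0, by simp [completeBipartiteGraph]⟩
  · intro c
    obtain ⟨i, j, hij, h⟩ := Fintype.exists_ne_map_eq_of_card_lt
      (fun i : Fin (r + 1) => c s(Sum.inl 0, Sum.inr i)) (by simp)
    refine ⟨Sum.inr i, Sum.inl 0, Sum.inr j, by simp [completeBipartiteGraph],
      by simp [completeBipartiteGraph], by simpa using hij, ?_⟩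
    have h' : c s(Sum.inl 0, Sum.inr i) = c s(Sum.inl 0, Sum.inr j) := h
    rw [← h', Sym2.eq_swap]
  · intro e he
    rw [st_edges] at he
    obtain ⟨i₀, rfl⟩ := he
    obtain ⟨g, hg⟩ : ∃ g : Fin (r + 1) → Fin r, ∀ i j, i ≠ i₀ → j ≠ i₀ → g i = g j → i = j := by
      refine ⟨fun i => if h : i = i₀ then ⟨0, hr⟩ else (finSuccAboveEquiv i₀).symm ⟨i, h⟩, ?_⟩
      intro i j hi hj h
      simp only [hi, hj, dite_false] at h
      have := (finSuccAboveEquiv i₀).symm.injective h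
      simpa using this
    refine ⟨fun e => if h : ∃ i, e = s(Sum.inl 0, Sum.inr i) then g h.choose else ⟨0, hr⟩, ?_⟩
    intro x y z h1 h2 h3 h4 h5
    obtain ⟨i, j, hij, h6, h7⟩ := st_cherry h1 h2 h3
    rw [h6, h7]
    have hcol : ∀ k : Fin (r + 1), (if h : ∃ i : Fin (r + 1),
        (s(Sum.inl 0, Sum.inr k) : Sym2 (Fin 1 ⊕ Fin (r + 1))) = s(Sum.inl 0, Sum.inr i)
        then g h.choose else ⟨0, hr⟩) = g k := by
      intro k
      have hk : ∃ i : Fin (r + 1),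
        (s(Sum.inl 0, Sum.inr k) : Sym2 (Fin 1 ⊕ Fin (r + 1))) = s(Sum.inl 0, Sum.inr i) := ⟨k, rfl⟩
      rw [dif_pos hk]
      congr 1
      exact (edge_inj _ hk.choose_spec).symm
    simp only [hcol]
    intro hgij
    refine hij (hg i j ?_ ?_ hgij)
    · rintro rfl; exact h4 h6
    · rintro rfl; exact h5 h7

lemma st_mult (m : ℕ) : multiplicity 1 P3 (St m) ≤ m.choose 2 := by
  classical
  refine mult_P3_le.trans ?_
  have hsub : {T : Set (Sym2 (Fin 1 ⊕ Fin m)) | ∃ x y z, (St m).Adj x y ∧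
      (St m).Adj y z ∧ x ≠ z ∧ T = {s(x, y), s(y, z)}} ⊆
      (fun A : Finset (Fin m) => (fun i : Fin m =>
        (s(Sum.inl 0, Sum.inr i) : Sym2 (Fin 1 ⊕ Fin m))) '' (A : Set (Fin m))) ''
        ((Finset.univ : Finset (Fin m)).powersetCard 2 : Set (Finset (Fin m))) := by
    rintro T ⟨x, y, z, h1, h2, h3, rfl⟩
    obtain ⟨i, j, hij, h6, h7⟩ := st_cherry h1 h2 h3
    refine ⟨{i, j}, ?_, ?_⟩
    · rw [Finset.mem_coe, Finset.mem_powersetCard]
      exact ⟨Finset.subset_univ _, Finset.card_pair hij⟩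
    · simp only [Finset.coe_insert, Finset.coe_singleton, Set.image_pair, h6, h7]
  refine (Set.ncard_le_ncard hsub (Set.toFinite _)).trans ?_
  refine (Set.ncard_image_le (Set.toFinite _)).trans ?_
  rw [Set.ncard_coe_finset, Finset.card_powersetCard, Finset.card_univ, Fintype.card_fin]

/-- Equality in the sharp bound for the cherry and `K_{1,r+1}`. -/
lemma st_robust (r : ℕ) (hr : 0 < r) :
    robustness r P3 (St (r + 1)) = 2 / (r * (r + 1 : ℕ)) := by
  have h1 := st_edges_ncard (r + 1)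
  have h2 := sandwich hr (st_minimal r hr) (by rw [h1]; omega) (by
    rw [h1]
    refine (Nat.mul_le_mul_left 2 (st_mult (r + 1))).trans ?_
    rw [Nat.choose_two_right, Nat.add_sub_cancel]
    have := Nat.mul_div_le ((r + 1) * r) 2
    rw [mul_comm r (r + 1)]
    exact this)
  rw [h2, h1]

end Y847.RB
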